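import Pool.Agent.W785.FD.Stms

set_option autoImplicit false
set_option linter.all false

open MeasureTheory Metric Set Filter
open scoped ENNReal NNReal Topology

namespace Pool.Agent.W918.FD.Cub

open Pool.Agent.W785.FD

theorem main {X : Type*} [MetricSpace X] [ProperSpace X] [MeasurableSpace X] [BorelSpace X] (μ : Measure X)
    (p D : ℝ) (hp : 1 < p) (hD : Dbl μ D) (h : S_WU μ p) (h2 : S_LOCS X) : S_CUB μ p := by
  refine ⟨D, lt_of_lt_of_le one_pos hD.one_le, fun x r hr => ?_⟩
  have hp0 : 0 < p := by linarith
  set u : X → ℝ := fun y => max 0 (min 1 (2 - dist y x / r)) with hu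
  have hu0 : ∀ y, 0 ≤ u y := fun y => le_max_left _ _
  have hu1 : ∀ y, u y ≤ 1 := fun y => max_le zero_le_one (min_le_left _ _)
  have hcont : Continuous u := by
    rw [hu]
    exact continuous_const.max (continuous_const.min (continuous_const.sub ((continuous_id.dist continuous_const).div_const r)))
  have hin : ∀ y ∈ ball x r, 1 ≤ u y := by
    intro y hy
    rw [mem_ball] at hy
    have h3 : dist y x / r ≤ 1 := by
      rw [div_le_one hr]
      exact hy.le
    exact le_max_of_le_right (le_min le_rfl (by linarith))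
  have hout : ∀ y, y ∉ ball x (2 * r) → u y = 0 := by
    intro y hy
    rw [mem_ball, not_lt] at hy
    have h3 : 2 ≤ dist y x / r := by
      rw [le_div_iff₀ hr]
      exact hy
    exact max_eq_left ((min_le_right _ _).trans (by linarith))
  have hlip : ∀ y z, |u y - u z| ≤ dist y z / r := by
    intro y z
    have h3 : |u y - u z| ≤ |min 1 (2 - dist y x / r) - min 1 (2 - dist z x / r)| := by
      simp only [hu]
      rw [max_comm 0, max_comm 0]
      exact abs_max_sub_max_le_abs _ _ _
    have h4 : |min 1 (2 - dist y x / r) - min 1 (2 - dist z x / r)| ≤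
        max |(1 : ℝ) - 1| |(2 - dist y x / r) - (2 - dist z x / r)| := abs_min_sub_min_le_max _ _ _ _
    have h5 : |(2 - dist y x / r) - (2 - dist z x / r)| ≤ dist y z / r := by
      have h6 : (2 - dist y x / r) - (2 - dist z x / r) = (dist z x - dist y x) / r := by ring
      rw [h6, abs_div, abs_of_pos hr]
      apply div_le_div_of_nonneg_right _ hr.le
      rw [dist_comm y z]
      exact abs_dist_sub_le z y x
    refine h3.trans (h4.trans (max_le ?_ h5))
    simp only [sub_self, abs_zero]
    positivity
  have hint : ∀ c : Crv X, c.int (fun _ => ENNReal.ofReal (1 / r)) = ENNReal.ofReal (c.l / r) := by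
    intro c
    unfold Crv.int
    rw [lintegral_const, Measure.restrict_apply_univ, Real.volume_Icc, sub_zero, ← ENNReal.ofReal_mul (by positivity)]
    congr 1
    ring
  have hUG : UG u (fun _ => ENNReal.ofReal (1 / r)) := by
    refine ⟨measurable_const, fun c => ?_⟩
    unfold CrvIneq
    rw [hint]
    apply ENNReal.ofReal_le_ofReal
    refine (hlip _ _).trans (div_le_div_of_nonneg_right ?_ hr.le)
    have h3 := c.lip.dist_le_mul 0 c.l
    rw [NNReal.coe_one, one_mul, Real.dist_eq, zero_sub, abs_neg, abs_of_nonneg c.nonneg] at h3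
    exact h3
  have hUG2 : UG u ((ball x (2 * r)).indicator (fun _ => ENNReal.ofReal (1 / r))) := by
    apply h2 u _ hUG
    · intro c
      rw [hint]
      exact ENNReal.ofReal_lt_top
    · exact measurableSet_ball
    · intro y hy
      by_contra h3
      exact hy (hout y h3)
  have hW : WUG μ p u ((ball x (2 * r)).indicator (fun _ => ENNReal.ofReal (1 / r))) := by
    rw [h]
    refine ⟨hUG2.1, fun _ => 0, measurable_const, ?_, fun c => Or.inl (hUG2.2 c)⟩
    simp [ENNReal.zero_rpow_of_pos hp0]
  have hfin : ∫⁻ y, (ENNReal.ofReal |u y|) ^ p ∂μ < ∞ := by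
    have h3 : ∫⁻ y, (ENNReal.ofReal |u y|) ^ p ∂μ ≤ ∫⁻ y, (ball x (2 * r)).indicator (fun _ => 1) y ∂μ := by
      apply lintegral_mono
      intro y
      by_cases hy : y ∈ ball x (2 * r)
      · rw [indicator_of_mem hy]
        show (ENNReal.ofReal |u y|) ^ p ≤ 1
        rw [abs_of_nonneg (hu0 y)]
        apply ENNReal.rpow_le_one _ hp0.le
        rw [← ENNReal.ofReal_one]
        exact ENNReal.ofReal_le_ofReal (hu1 y)
      · rw [indicator_of_notMem hy]
        show (ENNReal.ofReal |u y|) ^ p ≤ 0
        rw [hout y hy]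
        simp [ENNReal.zero_rpow_of_pos hp0]
    refine h3.trans_lt ?_
    rw [lintegral_indicator measurableSet_ball, lintegral_const, one_mul, Measure.restrict_apply_univ]
    exact hD.fin x (2 * r)
  have hcap : capB μ p (ball x r) x (2 * r) ≤ En μ p u := by
    unfold capB
    exact iInf_le_of_le u (iInf_le_of_le hcont.measurable.aemeasurable (iInf_le_of_le hfin
      (iInf_le_of_le hin (iInf_le_of_le hout le_rfl))))
  have hEn : En μ p u ≤ ∫⁻ y, ((ball x (2 * r)).indicator (fun _ => ENNReal.ofReal (1 / r)) y) ^ p ∂μ := by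
    unfold En
    exact iInf_le_of_le _ (iInf_le_of_le hW le_rfl)
  refine (hcap.trans hEn).trans ?_
  have h3 : ∀ y, ((ball x (2 * r)).indicator (fun _ => ENNReal.ofReal (1 / r)) y) ^ p =
      (ball x (2 * r)).indicator (fun _ => ENNReal.ofReal (1 / r ^ p)) y := by
    intro y
    by_cases hy : y ∈ ball x (2 * r)
    · rw [indicator_of_mem hy, indicator_of_mem hy, ENNReal.ofReal_rpow_of_pos (by positivity),
        Real.div_rpow zero_le_one hr.le, Real.one_rpow]
    · rw [indicator_of_notMem hy, indicator_of_notMem hy, ENNReal.zero_rpow_of_pos hp0]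
  simp only [h3]
  rw [lintegral_indicator measurableSet_ball, lintegral_const, Measure.restrict_apply_univ]
  calc ENNReal.ofReal (1 / r ^ p) * μ (ball x (2 * r))
      ≤ ENNReal.ofReal (1 / r ^ p) * (ENNReal.ofReal D * μ (ball x r)) := by gcongr; exact hD.dbl x r hr
    _ = ENNReal.ofReal (D / r ^ p) * μ (ball x r) := by
      rw [← mul_assoc, ← ENNReal.ofReal_mul (by positivity)]
      congr 2
      ring

end Pool.Agent.W918.FD.Cub
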